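import Mathlib
import Pool.Agent.Lib.MP_ee7b66_ag.Kod
import Pool.Agent.Lib.MP_ee7b66_ag.QAcyc
import Pool.Agent.Lib.MP_ee7b66_ag.H2Final

/-!
# A `ℚ`-acyclic surface of log-general type with obstructed deformations

`V` is the blow-up of the plane at the twelve triple points of the dual Hesse arrangement
`(X₀³ - X₁³)(X₁³ - X₂³)(X₂³ - X₀³) = 0`, and `D` consists of the strict transforms of the nine
lines and of the exceptional curves over the four triple points on the line `X₀ = X₁` (see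
`Witness.lean`).
-/

open Pool.Agent.Lib.MP_8481ed_ag Pool.Agent.Lib.MP_ee7b66_ag
open scoped LinearAlgebra.Projectivization

namespace Pool.Agent.Results.MP_ee7b66_ag.DualHesse

theorem result : ∃ (r : ℕ) (p : Fin r → ℙ ℂ (Fin 3 → ℂ)) (𝒟 : Set (Curve r)),
    Function.Injective p ∧ IsBoundary 𝒟 ∧ IsSNC p 𝒟 ∧ IsMinimal p 𝒟 ∧ IsQAcyclic p 𝒟 ∧
      IsLogGeneralType p 𝒟 ∧ Nontrivial (logTangentCohomology p 𝒟 2) :=
  ⟨12, hp, hD, hp_injective, isBoundary_hD, isSNC_hD, isMinimal_hD, isQAcyclic,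
    isLogGeneralType, nontrivial_H2⟩

end Pool.Agent.Results.MP_ee7b66_ag.DualHesse
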